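import Pool.Agent.Helper27_Sid.Basic

/-!
# Sidon sets of size `m` in abelian groups of order `m^2 - m + 1 + e`: the parity identity

`miss A` is the set of missing differences, `fm A g` the number of `a` in `A` with `g - a` missing,
`tt A g` the number of pairs `(a, b)` in `A` with `2 a - b = g`.
-/

set_option autoImplicit false

open Finset

namespace Pool.Agent.Helper70_F1

open Pool.Agent.Helper27_Sid

variable {G : Type*} [AddCommGroup G] [Fintype G] [DecidableEq G]

/-- the elements of `G` that are not a difference of two elements of `A` -/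
def miss (A : Finset G) : Finset G := univ.filter (fun g => ∀ a ∈ A, ∀ b ∈ A, a - b ≠ g)

/-- number of `a` in `A` such that `g - a` is a missing difference -/
def fm (A : Finset G) (g : G) : ℕ := (A.filter (fun a => g - a ∈ miss A)).card

/-- number of pairs `(a, b)` in `A` with `2 a - b = g` -/
def tt (A : Finset G) (g : G) : ℕ := ((A ×ˢ A).filter (fun p => p.1 + p.1 - p.2 = g)).card

/-- number of triples `(a, b, c)` in `A` with `a + b - c = g` -/
def ww (A : Finset G) (g : G) : ℕ :=
  ((A ×ˢ (A ×ˢ A)).filter (fun p => p.1 + p.2.1 - p.2.2 = g)).card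

variable {A : Finset G}

theorem mem_miss {g : G} : g ∈ miss A ↔ ∀ a ∈ A, ∀ b ∈ A, a - b ≠ g := by
  simp [miss]

theorem not_mem_miss {g : G} : g ∉ miss A ↔ ∃ a ∈ A, ∃ b ∈ A, a - b = g := by
  rw [mem_miss]; push Not; rfl

theorem neg_mem_miss {g : G} (h : g ∈ miss A) : -g ∈ miss A := by
  rw [mem_miss] at h ⊢
  intro a ha b hb hab
  exact h b hb a ha (by rw [← neg_sub, hab, neg_neg])

theorem zero_not_mem_miss (hA : A.Nonempty) : (0 : G) ∉ miss A := by
  obtain ⟨a, ha⟩ := hA
  rw [not_mem_miss]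
  exact ⟨a, ha, a, ha, sub_self a⟩

/-- number of representations as a difference -/
theorem card_rep (hS : IsSidon A) {g : G} (hg : g ≠ 0) :
    ((A ×ˢ A).filter (fun p => p.1 - p.2 = g)).card = if g ∈ miss A then 0 else 1 := by
  split_ifs with h
  · rw [Finset.card_eq_zero, Finset.filter_eq_empty_iff]
    rintro ⟨a, b⟩ hab
    rw [Finset.mem_product] at hab
    exact mem_miss.1 h a hab.1 b hab.2
  · obtain ⟨a, ha, b, hb, hab⟩ := not_mem_miss.1 h
    rw [Finset.card_eq_one]
    refine ⟨(a, b), ?_⟩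
    ext ⟨c, d⟩
    simp only [Finset.mem_filter, Finset.mem_product, Finset.mem_singleton, Prod.mk.injEq]
    constructor
    · rintro ⟨⟨hc, hd⟩, hcd⟩
      have hne : c ≠ d := by
        rintro rfl
        rw [sub_self] at hcd
        exact hg hcd.symm
      obtain ⟨h1, h2⟩ := hS.diff hc hd ha hb hne (by rw [hcd, hab])
      exact ⟨h1, h2⟩
    · rintro ⟨rfl, rfl⟩
      exact ⟨⟨ha, hb⟩, hab⟩

theorem sum_rep : ∑ g : G, ((A ×ˢ A).filter (fun p => p.1 - p.2 = g)).card = A.card * A.card := by
  rw [← Finset.card_product]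
  exact (Finset.card_eq_sum_card_fiberwise (f := fun p : G × G => p.1 - p.2)
    (t := univ) (fun _ _ => Finset.mem_univ _)).symm

omit [Fintype G] in
theorem card_rep_zero : ((A ×ˢ A).filter (fun p => p.1 - p.2 = (0 : G))).card = A.card := by
  have : (A ×ˢ A).filter (fun p => p.1 - p.2 = (0 : G)) = A.image (fun a => (a, a)) := by
    ext ⟨a, b⟩
    simp only [Finset.mem_filter, Finset.mem_product, Finset.mem_image, Prod.mk.injEq, sub_eq_zero]
    constructor
    · rintro ⟨⟨ha, hb⟩, rfl⟩
      exact ⟨a, ha, rfl, rfl⟩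
    · rintro ⟨c, hc, rfl, rfl⟩
      exact ⟨⟨hc, hc⟩, rfl⟩
  rw [this, Finset.card_image_of_injective]
  intro a b hab
  simpa using hab

/-- `|G| = m (m - 1) + 1 + e` -/
theorem card_eq (hS : IsSidon A) (hA : A.Nonempty) :
    Fintype.card G + A.card = A.card * A.card + 1 + (miss A).card := by
  have h1 := sum_rep (A := A)
  rw [← Finset.sum_erase_add _ _ (Finset.mem_univ (0 : G)), card_rep_zero] at h1
  have h2 : ∑ g ∈ univ.erase (0 : G), ((A ×ˢ A).filter (fun p => p.1 - p.2 = g)).card
      = ∑ g ∈ univ.erase (0 : G), (if g ∈ miss A then 0 else 1) := by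
    refine Finset.sum_congr rfl ?_
    intro g hg
    exact card_rep hS (Finset.ne_of_mem_erase hg)
  rw [h2] at h1
  have h3 : ∑ g ∈ univ.erase (0 : G), (if g ∈ miss A then 0 else 1)
      = ((univ.erase (0 : G)).filter (fun g => g ∉ miss A)).card := by
    rw [Finset.card_filter]
    refine Finset.sum_congr rfl ?_
    intro g _
    by_cases hg : g ∈ miss A <;> simp [hg]
  rw [h3] at h1
  have h4 : ((univ.erase (0 : G)).filter (fun g => g ∈ miss A)).card
      + ((univ.erase (0 : G)).filter (fun g => g ∉ miss A)).card = (univ.erase (0 : G)).card :=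
    Finset.card_filter_add_card_filter_not _
  have h5 : (univ.erase (0 : G)).filter (fun g => g ∈ miss A) = miss A := by
    ext g
    simp only [Finset.mem_filter, Finset.mem_erase, Finset.mem_univ, and_true]
    constructor
    · exact fun h => h.2
    · intro h
      refine ⟨?_, h⟩
      rintro rfl
      exact zero_not_mem_miss hA h
  rw [h5, Finset.card_erase_of_mem (Finset.mem_univ _), Finset.card_univ] at h4
  have h6 : 0 < Fintype.card G := Fintype.card_pos
  omega

theorem fm_of_mem {g : G} (hg : g ∈ A) : fm A g = 0 := by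
  unfold fm
  rw [Finset.card_eq_zero, Finset.filter_eq_empty_iff]
  intro a ha
  rw [not_mem_miss]
  exact ⟨g, hg, a, ha, rfl⟩

omit [Fintype G] in
theorem tt_of_mem (hS : IsSidon A) {g : G} (hg : g ∈ A) : tt A g = 1 := by
  unfold tt
  rw [Finset.card_eq_one]
  refine ⟨(g, g), ?_⟩
  ext ⟨a, b⟩
  simp only [Finset.mem_filter, Finset.mem_product, Finset.mem_singleton, Prod.mk.injEq]
  constructor
  · rintro ⟨⟨ha, hb⟩, hab⟩
    have h1 : a + a = b + g := by rw [← hab]; abel
    rcases hS a ha a ha b hb g hg h1 with ⟨h2, h3⟩ | ⟨h2, h3⟩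
    · exact ⟨h3, by rw [← h2, h3]⟩
    · exact ⟨h2, by rw [← h3, h2]⟩
  · rintro ⟨rfl, rfl⟩
    exact ⟨⟨hg, hg⟩, by abel⟩

/-- number of triples `a + b - c = g` for `g` not in `A` -/
theorem ww_add_fm (hS : IsSidon A) {g : G} (hg : g ∉ A) : ww A g + fm A g = A.card := by
  have h1 : ww A g = ∑ a ∈ A, ((A ×ˢ A).filter (fun p => p.1 - p.2 = g - a)).card := by
    unfold ww
    rw [Finset.card_filter, Finset.sum_product]
    refine Finset.sum_congr rfl ?_
    intro a _
    rw [Finset.card_filter]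
    refine Finset.sum_congr rfl ?_
    rintro ⟨b, c⟩ _
    refine if_congr ?_ rfl rfl
    constructor
    · intro h
      rw [← h]; abel
    · intro h
      have h' : b - c = g - a := h
      show a + b - c = g
      rw [add_sub_assoc, h']; abel
  have h2 : ∑ a ∈ A, ((A ×ˢ A).filter (fun p => p.1 - p.2 = g - a)).card
      = ∑ a ∈ A, (if g - a ∈ miss A then 0 else 1) := by
    refine Finset.sum_congr rfl ?_
    intro a ha
    refine card_rep hS ?_
    intro h
    rw [sub_eq_zero] at h
    exact hg (h ▸ ha)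
  have h3 : fm A g = ∑ a ∈ A, (if g - a ∈ miss A then 1 else 0) := by
    unfold fm
    rw [Finset.card_filter]
  rw [h1, h2, h3, ← Finset.sum_add_distrib, Finset.card_eq_sum_ones]
  refine Finset.sum_congr rfl ?_
  intro a _
  by_cases h : g - a ∈ miss A <;> simp [h]

omit [Fintype G] in
/-- swapping `a` and `b` -/
theorem ww_parity (A : Finset G) (g : G) : (ww A g : ZMod 2) = (tt A g : ZMod 2) := by
  have h1 : ww A g = ((A ×ˢ (A ×ˢ A)).filter
        (fun p => p.1 + p.2.1 - p.2.2 = g ∧ p.1 = p.2.1)).card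
      + ((A ×ˢ (A ×ˢ A)).filter (fun p => p.1 + p.2.1 - p.2.2 = g ∧ ¬ p.1 = p.2.1)).card := by
    unfold ww
    rw [← Finset.filter_filter, ← Finset.filter_filter,
      Finset.card_filter_add_card_filter_not]
  have h2 : ((A ×ˢ (A ×ˢ A)).filter
        (fun p => p.1 + p.2.1 - p.2.2 = g ∧ p.1 = p.2.1)).card = tt A g := by
    unfold tt
    refine Finset.card_bij (fun p _ => (p.1, p.2.2)) ?_ ?_ ?_
    · rintro ⟨a, b, c⟩ h
      simp only [Finset.mem_filter, Finset.mem_product] at h ⊢
      obtain ⟨⟨ha, hb, hc⟩, h1, rfl⟩ := h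
      exact ⟨⟨ha, hc⟩, h1⟩
    · rintro ⟨a, b, c⟩ h ⟨a', b', c'⟩ h' heq
      simp only [Finset.mem_filter, Finset.mem_product, Prod.mk.injEq] at h h' heq ⊢
      obtain ⟨_, _, rfl⟩ := h
      obtain ⟨_, _, rfl⟩ := h'
      exact ⟨heq.1, heq.1, heq.2⟩
    · rintro ⟨a, c⟩ h
      simp only [Finset.mem_filter, Finset.mem_product] at h
      exact ⟨(a, a, c), by simpa [Finset.mem_filter, Finset.mem_product] using
        ⟨⟨h.1.1, h.1.2⟩, h.2⟩, rfl⟩
  have h3 : (((A ×ˢ (A ×ˢ A)).filter
      (fun p => p.1 + p.2.1 - p.2.2 = g ∧ ¬ p.1 = p.2.1)).card : ZMod 2) = 0 := by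
    have h4 : ∑ _p ∈ (A ×ˢ (A ×ˢ A)).filter
        (fun p => p.1 + p.2.1 - p.2.2 = g ∧ ¬ p.1 = p.2.1), (1 : ZMod 2) = 0 := by
      refine Finset.sum_involution (fun p _ => (p.2.1, p.1, p.2.2)) ?_ ?_ ?_ ?_
      · intro p _
        decide
      · rintro ⟨a, b, c⟩ h _ heq
        simp only [Finset.mem_filter, Prod.mk.injEq] at h heq
        exact h.2.2 heq.1.symm
      · rintro ⟨a, b, c⟩ h
        simp only [Finset.mem_filter, Finset.mem_product] at h ⊢
        exact ⟨⟨h.1.2.1, h.1.1, h.1.2.2⟩, by rw [add_comm b a]; exact h.2.1, fun h' => h.2.2 h'.symm⟩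
      · rintro ⟨a, b, c⟩ _
        rfl
    simpa using h4
  rw [h1, h2]
  push_cast
  rw [h3, add_zero]

/-- THE PARITY LEMMA: off `A` the numbers `T(g) + f(g)` and `m` have the same parity -/
theorem parity (hS : IsSidon A) {g : G} (hg : g ∉ A) : (tt A g + fm A g) % 2 = A.card % 2 := by
  have h1 := ww_add_fm hS hg
  have h2 := ww_parity A g
  have h3 : ((tt A g + fm A g : ℕ) : ZMod 2) = ((A.card : ℕ) : ZMod 2) := by
    rw [← h1]; push_cast; rw [h2]
  exact (ZMod.natCast_eq_natCast_iff' _ _ _).1 h3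

theorem sum_fm (A : Finset G) : ∑ g : G, fm A g = A.card * (miss A).card := by
  unfold fm
  simp_rw [Finset.card_filter]
  rw [Finset.sum_comm]
  have : ∀ a ∈ A, ∑ g : G, (if g - a ∈ miss A then 1 else 0) = (miss A).card := by
    intro a _
    rw [← Finset.card_filter]
    refine Finset.card_bij (fun g _ => g - a) ?_ ?_ ?_
    · intro g hg
      exact (Finset.mem_filter.1 hg).2
    · intro g _ g' _ h
      exact sub_left_injective h
    · intro d hd
      exact ⟨d + a, by simpa using hd, by simp⟩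
  rw [Finset.sum_congr rfl this, Finset.sum_const, smul_eq_mul]

theorem sum_tt (A : Finset G) : ∑ g : G, tt A g = A.card * A.card := by
  unfold tt
  rw [← Finset.card_product]
  exact (Finset.card_eq_sum_card_fiberwise (f := fun p : G × G => p.1 + p.1 - p.2)
    (t := univ) (fun _ _ => Finset.mem_univ _)).symm

/-- the sum of `f (f - 1)` -/
theorem sum_fm_sq (hS : IsSidon A) (hA : A.Nonempty) :
    ∑ g : G, fm A g * fm A g + ((miss A ×ˢ miss A).filter (fun p => p.1 - p.2 ∈ miss A)).card
      + (miss A).card = A.card * (miss A).card + (miss A).card * (miss A).card := by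
  -- pairs `(a, d)`, `(a', d')` with `a + d = a' + d'`
  have h0 : ∀ g : G, fm A g * fm A g
      = (((miss A ×ˢ miss A) ×ˢ (A ×ˢ A)).filter
          (fun p => p.1.1 + p.2.1 = g ∧ p.1.2 + p.2.2 = g)).card := by
    intro g
    unfold fm
    rw [← Finset.card_product]
    refine Finset.card_bij (fun p _ => ((g - p.1, g - p.2), (p.1, p.2))) ?_ ?_ ?_
    · rintro ⟨a, b⟩ h
      simp only [Finset.mem_filter, Finset.mem_product] at h ⊢
      exact ⟨⟨⟨h.1.2, h.2.2⟩, h.1.1, h.2.1⟩, by abel, by abel⟩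
    · rintro ⟨a, b⟩ _ ⟨a', b'⟩ _ h
      simp only [Prod.mk.injEq] at h ⊢
      exact h.2
    · rintro ⟨⟨d, d'⟩, a, a'⟩ h
      simp only [Finset.mem_filter, Finset.mem_product] at h
      obtain ⟨⟨⟨hd, hd'⟩, ha, ha'⟩, h1, h2⟩ := h
      refine ⟨(a, a'), ?_, ?_⟩
      · simp only [Finset.mem_filter, Finset.mem_product]
        refine ⟨⟨ha, ?_⟩, ha', ?_⟩
        · rw [← h1, add_sub_cancel_right]; exact hd
        · rw [← h2, add_sub_cancel_right]; exact hd'
      · simp only [Prod.mk.injEq]
        refine ⟨⟨?_, ?_⟩, ?_⟩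
        · rw [← h1, add_sub_cancel_right]
        · rw [← h2, add_sub_cancel_right]
        · trivial
  have h1 : ∑ g : G, fm A g * fm A g
      = (((miss A ×ˢ miss A) ×ˢ (A ×ˢ A)).filter
          (fun p => p.1.1 + p.2.1 = p.1.2 + p.2.2)).card := by
    simp_rw [h0]
    rw [Finset.card_eq_sum_card_fiberwise (f := fun p : (G × G) × (G × G) => p.1.1 + p.2.1)
      (t := univ) (fun _ _ => Finset.mem_univ _)]
    refine Finset.sum_congr rfl ?_
    intro g _
    rw [Finset.filter_filter]
    refine congrArg Finset.card (Finset.filter_congr ?_)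
    intro p _
    constructor
    · rintro ⟨h1, h2⟩
      exact ⟨by rw [h1, h2], h1⟩
    · rintro ⟨h1, h2⟩
      exact ⟨h2, by rw [← h1, h2]⟩
  have h2 : (((miss A ×ˢ miss A) ×ˢ (A ×ˢ A)).filter
          (fun p => p.1.1 + p.2.1 = p.1.2 + p.2.2)).card
      = ∑ q ∈ miss A ×ˢ miss A, ((A ×ˢ A).filter (fun p => p.1 - p.2 = q.2 - q.1)).card := by
    rw [Finset.card_filter, Finset.sum_product]
    refine Finset.sum_congr rfl ?_
    rintro ⟨d, d'⟩ _
    rw [Finset.card_filter]
    refine Finset.sum_congr rfl ?_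
    rintro ⟨a, a'⟩ _
    refine if_congr ?_ rfl rfl
    show d + a = d' + a' ↔ a - a' = d' - d
    constructor
    · intro h
      have : a - a' = (d + a) - a' - d := by abel
      rw [this, h]; abel
    · intro h
      have : a = (d' - d) + a' := by rw [← h]; abel
      rw [this]; abel
  have h3 : ∑ q ∈ miss A ×ˢ miss A, ((A ×ˢ A).filter (fun p => p.1 - p.2 = q.2 - q.1)).card
      = ∑ q ∈ miss A ×ˢ miss A, (if q.1 = q.2 then A.card else
          if q.1 - q.2 ∈ miss A then 0 else 1) := by
    refine Finset.sum_congr rfl ?_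
    rintro ⟨d, d'⟩ _
    show ((A ×ˢ A).filter (fun p => p.1 - p.2 = d' - d)).card = if d = d' then A.card else
      if d - d' ∈ miss A then 0 else 1
    by_cases hd : d = d'
    · rw [if_pos hd, hd, sub_self]
      exact card_rep_zero
    · rw [if_neg hd, card_rep hS (fun h => hd (sub_eq_zero.1 h).symm)]
      refine if_congr ?_ rfl rfl
      constructor
      · intro h
        have := neg_mem_miss h
        rwa [neg_sub] at this
      · intro h
        have := neg_mem_miss h
        rwa [neg_sub] at this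
  rw [h1, h2, h3]
  have h4 : ∑ q ∈ miss A ×ˢ miss A, (if q.1 = q.2 then A.card else
          if q.1 - q.2 ∈ miss A then 0 else 1)
      + ∑ q ∈ miss A ×ˢ miss A, (if q.1 - q.2 ∈ miss A then 1 else 0)
      + ∑ q ∈ miss A ×ˢ miss A, (if q.1 = q.2 then 1 else 0)
      = ∑ q ∈ miss A ×ˢ miss A, (if q.1 = q.2 then A.card else 0)
        + ∑ q ∈ miss A ×ˢ miss A, 1 := by
    rw [← Finset.sum_add_distrib, ← Finset.sum_add_distrib, ← Finset.sum_add_distrib]
    refine Finset.sum_congr rfl ?_
    rintro ⟨d, d'⟩ _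
    show (if d = d' then A.card else if d - d' ∈ miss A then 0 else 1)
      + (if d - d' ∈ miss A then 1 else 0) + (if d = d' then 1 else 0)
      = (if d = d' then A.card else 0) + 1
    by_cases hd : d = d'
    · subst hd
      simp [zero_not_mem_miss hA]
    · by_cases h : d - d' ∈ miss A <;> simp [hd, h]
  have h5 : ∑ q ∈ miss A ×ˢ miss A, (if q.1 = q.2 then 1 else 0) = (miss A).card := by
    rw [Finset.sum_product]
    have : ∀ d ∈ miss A, ∑ d' ∈ miss A, (if d = d' then 1 else 0) = 1 := by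
      intro d hd
      rw [Finset.sum_ite_eq]; simp [hd]
    rw [Finset.sum_congr rfl this]; simp
  have h6 : ∑ q ∈ miss A ×ˢ miss A, (if q.1 = q.2 then A.card else 0)
      = A.card * (miss A).card := by
    rw [← h5, Finset.mul_sum]
    refine Finset.sum_congr rfl ?_
    intro q _
    split_ifs <;> simp
  rw [← Finset.card_filter, h5, h6, ← Finset.card_eq_sum_ones, Finset.card_product] at h4
  exact h4

end Pool.Agent.Helper70_F1
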