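import Pool.Agent.Helper70_F1.Core

/-!
# Sidon sets in groups whose quotient by the 3-torsion is small
-/

set_option autoImplicit false

open Finset

namespace Pool.Agent.Helper70_F1

open Pool.Agent.Helper27_Sid

variable {G : Type*} [AddCommGroup G] [Fintype G] [DecidableEq G] {A : Finset G}

omit [Fintype G] in
/-- if all solutions of `2 a - c = g` have `3 (a - c) = 0` then they come in pairs -/
theorem tt_even (A : Finset G) {g : G} (hg : g ∉ A)
    (h : ∀ a ∈ A, ∀ c ∈ A, a + a - c = g → (a - c) + (a - c) + (a - c) = 0) :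
    tt A g % 2 = 0 := by
  have h4 : ∑ _p ∈ (A ×ˢ A).filter (fun p => p.1 + p.1 - p.2 = g), (1 : ZMod 2) = 0 := by
    refine Finset.sum_involution (fun p _ => (p.2, p.1)) ?_ ?_ ?_ ?_
    · intro p _
      decide
    · rintro ⟨a, c⟩ hp _ heq
      simp only [Finset.mem_filter, Finset.mem_product, Prod.mk.injEq] at hp heq
      obtain ⟨⟨ha, hc⟩, h1⟩ := hp
      rw [heq.1, add_sub_cancel_right] at h1
      exact hg (h1 ▸ ha)
    · rintro ⟨a, c⟩ hp
      simp only [Finset.mem_filter, Finset.mem_product] at hp ⊢
      obtain ⟨⟨ha, hc⟩, h1⟩ := hp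
      refine ⟨⟨hc, ha⟩, ?_⟩
      have h2 := h a ha c hc h1
      have h3 : c + c - a = (a + a - c) - ((a - c) + (a - c) + (a - c)) := by abel
      rw [h3, h2, sub_zero, h1]
    · rintro ⟨a, c⟩ _
      rfl
  have h5 : ((tt A g : ℕ) : ZMod 2) = 0 := by
    unfold tt
    simpa using h4
  have h6 : ((tt A g : ℕ) : ZMod 2) = ((0 : ℕ) : ZMod 2) := by simpa using h5
  exact (ZMod.natCast_eq_natCast_iff' _ _ _).1 h6

/-- pairs of `A` in the same coset of `K` -/
theorem coset_pairs (A : Finset G) (K : AddSubgroup G) [DecidablePred (fun x => x ∈ K)] :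
    A.card * A.card ≤ K.index * ((A ×ˢ A).filter (fun p => p.1 - p.2 ∈ K)).card := by
  classical
  have : Fintype (G ⧸ K) := Fintype.ofFinite _
  have h1 : A.card = ∑ q : G ⧸ K, (A.filter (fun a => (QuotientAddGroup.mk a : G ⧸ K) = q)).card :=
    Finset.card_eq_sum_card_fiberwise (fun _ _ => Finset.mem_univ _)
  have h2 : ((A ×ˢ A).filter (fun p => p.1 - p.2 ∈ K)).card
      = ∑ q : G ⧸ K, (A.filter (fun a => (QuotientAddGroup.mk a : G ⧸ K) = q)).card ^ 2 := by
    rw [Finset.card_eq_sum_card_fiberwise (f := fun p : G × G => (QuotientAddGroup.mk p.1 : G ⧸ K))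
      (t := univ) (fun _ _ => Finset.mem_univ _)]
    refine Finset.sum_congr rfl ?_
    intro q _
    rw [sq, ← Finset.card_product]
    congr 1
    ext ⟨a, b⟩
    simp only [Finset.mem_filter, Finset.mem_product]
    constructor
    · rintro ⟨⟨⟨ha, hb⟩, hab⟩, hq⟩
      refine ⟨⟨ha, hq⟩, hb, ?_⟩
      rw [← hq]
      rw [QuotientAddGroup.eq]
      have : -b + a = a - b := by abel
      rw [this]; exact hab
    · rintro ⟨⟨ha, hq⟩, hb, hq'⟩
      refine ⟨⟨⟨ha, hb⟩, ?_⟩, hq⟩
      rw [← hq, QuotientAddGroup.eq] at hq'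
      have : -b + a = a - b := by abel
      rw [this] at hq'; exact hq'
  have h3 : (∑ q : G ⧸ K, (A.filter (fun a => (QuotientAddGroup.mk a : G ⧸ K) = q)).card) ^ 2
      ≤ (univ : Finset (G ⧸ K)).card *
        ∑ q : G ⧸ K, (A.filter (fun a => (QuotientAddGroup.mk a : G ⧸ K) = q)).card ^ 2 :=
    sq_sum_le_card_mul_sum_sq
  rw [← h1, ← h2, Finset.card_univ] at h3
  have h4 : Fintype.card (G ⧸ K) = K.index := by
    rw [AddSubgroup.index, Nat.card_eq_fintype_card]
  rw [h4, sq] at h3
  exact h3

/-- general bound: `m` odd, `K` a subgroup of exponent dividing 3, `h` its index -/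
theorem bound_odd (hS : IsSidon A) (hodd : A.card % 2 = 1) (K : AddSubgroup G)
    (hK : ∀ x ∈ K, x + x + x = 0) :
    (K.index : ℤ) * ((A.card - 1) * (A.card - 1 - (miss A).card))
      ≤ (K.index - 1) * (A.card * A.card) := by
  classical
  have hA : A.Nonempty := by
    rw [← Finset.card_pos]; omega
  set P := ((A ×ˢ A).filter (fun p => p.1 - p.2 ∈ K)).card with hP
  have h1 := coset_pairs A K
  rw [← hP] at h1
  -- the set of points off `A` with an odd number of solutions
  have h2 : ((univ \ A).filter (fun g => tt A g % 2 = 1)).card + P ≤ A.card * A.card := by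
    have h3 : (univ \ A).filter (fun g => tt A g % 2 = 1)
        ⊆ ((A ×ˢ A).filter (fun p => ¬ p.1 - p.2 ∈ K)).image (fun p => p.1 + p.1 - p.2) := by
      intro g hg
      simp only [Finset.mem_filter, Finset.mem_sdiff, Finset.mem_univ, true_and] at hg
      by_contra hc
      have h4 := tt_even A hg.1 (by
        intro a ha c hc' hac
        by_contra hne
        apply hc
        rw [Finset.mem_image]
        refine ⟨(a, c), ?_, hac⟩
        simp only [Finset.mem_filter, Finset.mem_product]
        exact ⟨⟨ha, hc'⟩, fun hk => hne (hK _ hk)⟩)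
      omega
    have h5 := (Finset.card_le_card h3).trans Finset.card_image_le
    have h6 : ((A ×ˢ A).filter (fun p => p.1 - p.2 ∈ K)).card
        + ((A ×ˢ A).filter (fun p => ¬ p.1 - p.2 ∈ K)).card = (A ×ˢ A).card :=
      Finset.card_filter_add_card_filter_not _
    rw [Finset.card_product] at h6
    omega
  have h7 : ((univ \ A).filter (fun g => ¬ tt A g % 2 = 1)).card ≤ A.card * (miss A).card := by
    rw [← sum_fm A, Finset.card_filter]
    refine (Finset.sum_le_sum (f := fun g => if ¬ tt A g % 2 = 1 then 1 else 0)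
      (g := fun g => fm A g) ?_).trans (Finset.sum_le_sum_of_subset (Finset.subset_univ _))
    intro g hg
    rw [Finset.mem_sdiff] at hg
    have := parity hS hg.2
    show (if ¬ tt A g % 2 = 1 then 1 else 0) ≤ fm A g
    split_ifs with h
    · exact Nat.zero_le _
    · omega
  have h8 : ((univ \ A).filter (fun g => tt A g % 2 = 1)).card
      + ((univ \ A).filter (fun g => ¬ tt A g % 2 = 1)).card = (univ \ A).card :=
    Finset.card_filter_add_card_filter_not _
  have h9 : (univ \ A).card + A.card = Fintype.card G := by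
    rw [Finset.card_sdiff_add_card_eq_card (Finset.subset_univ _), Finset.card_univ]
  have h10 := card_eq hS hA
  have h11 : A.card * A.card + 1 + (miss A).card + P
      ≤ A.card * A.card + A.card * (miss A).card + 2 * A.card := by omega
  have h12 : 0 < K.index := Nat.pos_of_ne_zero AddSubgroup.index_ne_zero_of_finite
  have h1' : (A.card : ℤ) * A.card ≤ K.index * P := by exact_mod_cast h1
  have h11' : (A.card : ℤ) * A.card + 1 + (miss A).card + P
      ≤ A.card * A.card + A.card * (miss A).card + 2 * A.card := by exact_mod_cast h11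
  have h12' : (0 : ℤ) < K.index := by exact_mod_cast h12
  nlinarith [mul_le_mul_of_nonneg_left h11' h12'.le]

/-- exponent 3, `m` odd -/
theorem three_odd (hS : IsSidon A) (hodd : A.card % 2 = 1) (h3 : ∀ x : G, x + x + x = 0) :
    A.card * A.card ≤ Fintype.card G := by
  have hA : A.Nonempty := by
    rw [← Finset.card_pos]; omega
  have h1 := bound_odd hS hodd ⊤ (fun x _ => h3 x)
  rw [AddSubgroup.index_top] at h1
  have h2 := card_eq hS hA
  by_contra hc
  push Not at hc
  have h4 : (miss A).card + 1 < A.card := by omega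
  have h5 : ((miss A).card : ℤ) + 1 < A.card := by exact_mod_cast h4
  have h6 : (1 : ℤ) < A.card := by
    have : (0 : ℤ) ≤ (miss A).card := by positivity
    linarith
  push_cast at h1
  nlinarith [mul_pos (sub_pos.2 h6) (show (0 : ℤ) < A.card - 1 - (miss A).card by linarith)]

/-- exponent 3, `m` even -/
theorem three_even (hS : IsSidon A) (hA : A.Nonempty) (heven : A.card % 2 = 0)
    (h3 : ∀ x : G, x + x + x = 0) :
    Fintype.card G + A.card = A.card * A.card + 1 ∨ A.card * A.card + 3 ≤ Fintype.card G := by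
  have h2 := card_eq hS hA
  have h4 : ∀ g : G, 2 * fm A g ≤ fm A g * fm A g := by
    intro g
    by_cases hg : g ∈ A
    · rw [fm_of_mem hg]
    · have h5 := parity hS hg
      have h6 := tt_even A hg (fun a _ c _ _ => h3 _)
      have h7 : fm A g % 2 = 0 := by omega
      rcases Nat.lt_or_ge (fm A g) 2 with h8 | h8
      · have : fm A g = 0 := by omega
        rw [this]
      · exact Nat.mul_le_mul_right _ h8
  have h5 : 2 * (A.card * (miss A).card) ≤ ∑ g : G, fm A g * fm A g := by
    rw [← sum_fm A, Finset.mul_sum]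
    exact Finset.sum_le_sum (fun g _ => h4 g)
  have h6 := sum_fm_sq hS hA
  have h7 : (miss A).card ≤ ((miss A ×ˢ miss A).filter (fun p => p.1 - p.2 ∈ miss A)).card := by
    refine Finset.card_le_card_of_injOn (fun d => (d, -d)) ?_ ?_
    · intro d hd
      simp only [Finset.coe_filter, Set.mem_ofPred_eq, Finset.mem_product]
      have hd' : d ∈ miss A := hd
      refine ⟨⟨hd', neg_mem_miss hd'⟩, ?_⟩
      have : d - -d = -d := by
        have h8 : d - -d = (d + d + d) - d := by abel
        rw [h8, h3 d, zero_sub]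
      rw [this]
      exact neg_mem_miss hd'
    · intro d _ d' _ h
      simp only [Prod.mk.injEq] at h
      exact h.1
  rcases Nat.eq_zero_or_pos (miss A).card with h8 | h8
  · left; omega
  · right
    have h9 : A.card * (miss A).card + 2 * (miss A).card ≤ (miss A).card * (miss A).card := by
      nlinarith
    have h10 : A.card + 2 ≤ (miss A).card := by
      by_contra hc
      push Not at hc
      nlinarith
    omega

end Pool.Agent.Helper70_F1
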